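import Pool.Agent.L5helper84.QMU.Main

set_option autoImplicit false

/-!
# The moments of the family of Q1, of every order `k`, on the line `s_j = 1/2 + iα_j`, for almost all `α`

Q1 implies that the shifted moments `∑_d ∏_j L(s_j, χ_d)` over the fundamental discriminants obey the recipe of Conrey,
Farmer, Keating, Rubinstein and Snaith with a power saving, for every `k`. We show, unconditionally, for every `k ≥ 1`, every
sign `s` of the discriminants and every `θ > 1`: there is `δ > 0` such that for all large `X`, for all shift vectors `α` in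
the cube `[-X^θ, X^θ]^k` outside one set of measure at most `X^(kθ - δ)` and for ALL `0 ≤ Y ≤ X` at once,

`|∑_(1 < |d| < Y) ∏_j L(1/2 + i α_j, χ_d) - (3/π²) Y A_k(iα) ∏_(i ≤ j) ζ(1 + i α_i + i α_j)| ≤ X^(1 - δ)`.

The main term is the residue of the multiple Dirichlet series at its pole `w = 1` (divided by `w = 1`); the other terms of
the recipe (the poles at `w = 1 - i ∑_(j in J) α_j`) are of the order `Y / |∑_(j in J) α_j|`, smaller than the error term
for almost all shifts of this size. The uniformity in `Y` gives, by partial summation, the same for all smooth weights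
`g(|d|/X)` at once, with the same exceptional set.

The parts (Heath-Brown's quadratic large sieve as an operator bound between the family and the interval of the shifts, the
replacement of the factors, the main term) are those of the starting project QM (`Pool.Agent.N879.QM`), whose final theorem
(`all_main`, not a hand-in) is the case `Y = X`; new here is the uniformity in `Y` (one exceptional set for all the initial
pieces): a grid of values of `Y`, the operator bound for each piece, and for the steps between the grid points the second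
moment of the product on the cube. The starting hand-in `MP_ea46f5_nt.GenericShifts` is the companion for `0 < θ ≤ 1`, `Y = X`,
where up to `X^(1 - δ)` discriminants have to be removed from the family.
-/

namespace Pool.Agent.Results.MP_fed7ff_nt.AlmostAllShifts

open Complex MeasureTheory

noncomputable section

/-- The characters `χ_d` of the fundamental discriminants `d` of sign `s` with `|d| = q` (`q ≥ 2`): the real primitive
characters modulo `q` with `χ(-1) = s`. -/
def chars (s : ℤ) (q : ℕ) : Set (DirichletCharacter ℂ q) :=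
  {χ | χ.IsPrimitive ∧ χ ^ 2 = 1 ∧ χ (-1) = (s : ℂ)}

/-- The `L`-function of a Dirichlet character modulo `q ≥ 1` (the analytic continuation of `∑ χ(n) n^(-z)`). -/
def L {q : ℕ} (χ : DirichletCharacter ℂ q) (z : ℂ) : ℂ :=
  if h : q ≠ 0 then haveI : NeZero q := ⟨h⟩; DirichletCharacter.LFunction χ z else 0

/-- The shifted moment: the sum of `∏_j L(1/2 + i α_j, χ_d)` over all `d` of sign `s` with `2 ≤ |d| < X`. -/
def moment {k : ℕ} (s : ℤ) (X : ℝ) (α : Fin k → ℝ) : ℂ :=
  ∑ q ∈ Finset.Ico 2 ⌈X⌉₊, ∑ᶠ χ ∈ chars s q, ∏ j, L χ (1 / 2 + I * (α j : ℂ))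

/-- The local factor of `A_k(z_1, …, z_k)` at the prime `p`. -/
def localFactor {k : ℕ} (z : Fin k → ℂ) (p : ℕ) : ℂ :=
  (∏ i, ∏ j ∈ Finset.Ici i, (1 - (p : ℂ) ^ (-(1 + z i + z j)))) *
    (1 / 2 * ((∏ j, (1 - (p : ℂ) ^ (-(1 / 2 + z j)))⁻¹) + ∏ j, (1 + (p : ℂ) ^ (-(1 / 2 + z j)))⁻¹) + 1 / (p : ℂ)) *
    (1 + 1 / (p : ℂ))⁻¹

/-- The Euler product `A_k(z_1, …, z_k)`. -/
def A {k : ℕ} (z : Fin k → ℂ) : ℂ := ∏' p : Nat.Primes, localFactor z p

/-- `A_k(z) ∏_(i ≤ j) ζ(1 + z_i + z_j)`. -/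
def mainTerm {k : ℕ} (z : Fin k → ℂ) : ℂ := A z * ∏ i, ∏ j ∈ Finset.Ici i, riemannZeta (1 + z i + z j)

lemma mainTerm_eq {k : ℕ} (z : Fin k → ℂ) : mainTerm z = Pool.Agent.N879.QM.MT z := by
  unfold mainTerm Pool.Agent.N879.QM.MT A Pool.Agent.N879.QM.Ak
  rw [← Pool.Agent.N879.QM.prod_Pr (fun i j => riemannZeta (1 + z i + z j))]
  congr 1
  refine tprod_congr fun p => ?_
  unfold localFactor Pool.Agent.N879.QM.loc
  rw [← Pool.Agent.N879.QM.prod_Pr (fun i j => 1 - ((p : ℕ) : ℂ) ^ (-(1 + z i + z j)))]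

lemma moment_eq {k : ℕ} (s : ℤ) (X : ℝ) (α : Fin k → ℝ) :
    moment s X α = ∑ q ∈ Pool.Agent.N879.QM.Q s X, ∏ j, Pool.Agent.N879.QM.LL s q
      (Pool.Agent.N879.QM.pt (α j)) := by
  classical
  unfold Pool.Agent.N879.QM.Q
  rw [Finset.sum_filter]
  refine Finset.sum_congr rfl fun q hq => ?_
  have hq2 : 2 ≤ q := (Finset.mem_Ico.1 hq).1
  split_ifs with h
  · have h2 : chars s q = {Pool.Agent.N879.QM.ch s q} :=
      Pool.Agent.N879.QM.Fq_eq Pool.Agent.N879.QM.t_UNI h
    rw [h2, finsum_mem_singleton]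
    rfl
  · have h2 : chars s q = ∅ := Pool.Agent.N879.QM.Fq_empty hq2 h
    rw [h2, finsum_mem_empty]

/-- For every `k ≥ 1`, every sign `s` and every `θ > 1` there are `δ > 0` and `X₀` such that for all `X ≥ X₀` the shift
vectors `α` with `|α_j| ≤ X^θ` for which
`|∑_d ∏_j L(1/2 + i α_j, χ_d) - (3/π²) Y A_k(iα) ∏_(i ≤ j) ζ(1 + i α_i + i α_j)| > X^(1 - δ)` for some `0 ≤ Y ≤ X`, the sum
over all fundamental discriminants `d` of sign `s` with `2 ≤ |d| < Y`, form a set of measure at most `X^(kθ - δ)`. -/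
theorem result (k : ℕ) (hk : 1 ≤ k) (s : ℤ) (hs : s = 1 ∨ s = -1) (θ : ℝ) (hθ : 1 < θ) :
    ∃ δ X₀ : ℝ, 0 < δ ∧ ∀ X : ℝ, X₀ ≤ X →
      volume {α : Fin k → ℝ | (∀ j, |α j| ≤ X ^ θ) ∧ ∃ Y : ℝ, 0 ≤ Y ∧ Y ≤ X ∧
        X ^ (1 - δ) < ‖moment s Y α - (3 / (Real.pi : ℂ) ^ 2) * Y * mainTerm (fun j => I * (α j : ℂ))‖} ≤
      ENNReal.ofReal (X ^ (k * θ - δ)) := by
  obtain ⟨δ, X₀, hδ, h⟩ := Pool.Agent.L5helper84.QMU.umain k s θ hk hs hθ
  refine ⟨δ, X₀, hδ, fun X hX => ?_⟩
  have h1 := h X hX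
  rw [← Pool.Agent.N879.QM.vol_mS] at h1
  refine le_trans (le_of_eq ?_) h1
  congr 1
  ext α
  have e2 : ∀ Y : ℝ, (3 / (Real.pi : ℂ) ^ 2) * Y = ((Pool.Agent.N879.QM.c0 * Y : ℝ) : ℂ) := by
    intro Y
    unfold Pool.Agent.N879.QM.c0
    push_cast
    ring
  simp only [Set.mem_setOf_eq, moment_eq, e2, mainTerm_eq]
  rfl

end

end Pool.Agent.Results.MP_fed7ff_nt.AlmostAllShifts
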