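import Mathlib
import Pool.Agent.L5helper5.LE.Conv

/-!
# Continuation of multiple Dirichlet series of quadratic L-functions: the line `s_1 = ... = s_k = 1/2`

The objects are those of the problem (`Pool.Agent.Q48.MDS.Defs`): `ContinuesTo k M p` says that `F_M` extends
holomorphically from the region where all the real parts are greater than `1` to a tube domain containing the real point `p`,
with polynomial bounds in vertical strips; `p = (w, s_1, ..., s_k)`; Q1 is `ContinuesTo k M (1, 1/2, ..., 1/2)` for all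
`k, M ≥ 1`.

Let `w_k ≥ 1` be the infimum of the `w ≥ 1` such that `F_1` (for `k` variables) continues to `(w, 1/2, ..., 1/2)`, and `θ` the
infimum of the `a ≥ 0` with `L(1/2 + it, χ_d) ≪ d^a (1+|t|)^N` for some `N`, for all positive fundamental discriminants
`d > 1` and all real `t`.

* `0 ≤ θ ≤ 1/4` and `(k - 1) θ ≤ w_k ≤ 1 + k θ`; so `w_k / k → θ`.
* For all `M` at once: `F_M` continues to `(w, 1/2, ..., 1/2)` for all `w > 1 + k θ`.
* The following are equivalent: the Lindelöf hypothesis in the discriminant aspect `θ = 0`; `F_M` continues to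
  `(w, 1/2, ..., 1/2)` for all `w > 1` and all `k, M`; for every `ε > 0` there are arbitrarily large `k` such that `F_1`
  continues to `(w, 1/2, ..., 1/2)` for some `w ≤ ε k`. In particular Q1, for `M = 1` and infinitely many `k`, implies `θ = 0`.

The proofs: Bochner's tube theorem (starting library), positivity and Landau's argument for the Dirichlet series in `w` at
`s = (1/2 + it, ..., 1/2 + it, 1/2 - it, ..., 1/2 - it)`; the Phragmén–Lindelöf principle for the converse.
-/

set_option autoImplicit false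

namespace Pool.Agent.Results.MP_fed7ff_nt.LindelofDictionary

open Complex Filter Topology
open Pool.Agent.Q48.MDS

/-- `|L(1/2 + it, χ_d)| ≤ C d^a (1+|t|)^N` for all positive fundamental discriminants `d > 1` and all real `t`, with some
constants `C`, `N`. -/
def Bound (a : ℝ) : Prop := ∃ (C : ℝ) (N : ℕ), ∀ (d : ℕ) [NeZero d], FundDisc d → 1 < d →
  ∀ χ : DirichletCharacter ℂ d, (∀ n : ℕ, 1 ≤ n → χ (n : ZMod d) = (kron d n : ℂ)) →
    ∀ t : ℝ, ‖DirichletCharacter.LFunction χ (1 / 2 + I * t)‖ ≤ C * (d : ℝ) ^ a * (1 + |t|) ^ N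

/-- The point `(w, 1/2, ..., 1/2)`. -/
noncomputable def pt (k : ℕ) (w : ℝ) : Fin (k + 1) → ℝ := Fin.cons w (fun _ => 1 / 2)

/-- The infimum of the `w ≥ 1` such that `F_1` continues to `(w, 1/2, ..., 1/2)`. -/
noncomputable def wInf (k : ℕ) : ℝ := sInf {w : ℝ | 1 ≤ w ∧ ContinuesTo k 1 (pt k w)}

/-- The infimum of the exponents. -/
noncomputable def theta : ℝ := sInf {a : ℝ | 0 ≤ a ∧ Bound a}

lemma bound_iff (a : ℝ) : Bound a ↔ Pool.Agent.L5helper5.LE.LBx a := by
  constructor
  · rintro ⟨C, N, h⟩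
    refine ⟨C, N, fun d hd h1 t => ?_⟩
    have : NeZero d := ⟨by omega⟩
    rw [Pool.Agent.L5helper5.LE.Lx_def hd h1]
    exact h d hd h1 _ (fun n hn => Pool.Agent.L5helper5.LE.chr_apply hd h1 hn) t
  · rintro ⟨C, N, h⟩
    refine ⟨C, N, fun d _ hd h1 χ hχ t => ?_⟩
    rw [Pool.Agent.L5helper5.LE.Lx_of_char hd h1 hχ]
    exact h d hd h1 t

lemma theta_eq : theta = Pool.Agent.L5helper5.LE.th := by
  unfold theta Pool.Agent.L5helper5.LE.th
  simp only [bound_iff]

lemma wInf_eq (k : ℕ) : wInf k = Pool.Agent.L5helper5.LE.wk k := rfl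

/-- **Theorem.** -/
theorem result :
    -- the Kronecker symbol of a positive fundamental discriminant `d > 1` is a character of modulus `d`, not principal
    (∀ d : ℕ, FundDisc d → 1 < d → ∃ χ : DirichletCharacter ℂ d, χ ≠ 1 ∧
      ∀ n : ℕ, 1 ≤ n → χ (n : ZMod d) = (kron d n : ℂ)) ∧
    -- a bound of exponent `a` gives the continuation to `w > 1 + k a`, for all twists
    (∀ a : ℝ, 0 ≤ a → Bound a → ∀ (k M : ℕ) (w : ℝ), 1 + k * a < w → ContinuesTo k M (pt k w)) ∧
    -- the continuation for `2 m` variables to `w` gives the bounds of all exponents `a > w / (2 m)`, if `w ≥ 1`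
    (∀ (m : ℕ) (w : ℝ), 1 ≤ m → 1 ≤ w → ContinuesTo (2 * m) 1 (pt (2 * m) w) →
      ∀ a : ℝ, w < 2 * m * a → Bound a) ∧
    -- the infima are attained in the limit, and compared
    (0 ≤ theta ∧ theta ≤ 1 / 4 ∧ (∀ a : ℝ, theta < a → Bound a) ∧
      (∀ (k : ℕ) (w : ℝ), wInf k < w → ContinuesTo k 1 (pt k w)) ∧
      (∀ (k M : ℕ) (w : ℝ), 1 + k * theta < w → ContinuesTo k M (pt k w)) ∧
      (∀ k : ℕ, 1 ≤ wInf k ∧ ((k : ℝ) - 1) * theta ≤ wInf k ∧ wInf k ≤ 1 + k * theta) ∧
      Tendsto (fun k : ℕ => wInf k / k) atTop (𝓝 theta)) ∧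
    -- the Lindelöf hypothesis in the discriminant aspect
    List.TFAE [∀ a : ℝ, 0 < a → Bound a,
      ∀ (k M : ℕ) (w : ℝ), 1 ≤ k → 1 ≤ M → 1 < w → ContinuesTo k M (pt k w),
      ∀ ε : ℝ, 0 < ε → ∀ K : ℕ, ∃ k ≥ K, ∃ w ≤ ε * k, ContinuesTo k 1 (pt k w)] ∧
    -- Q1 for infinitely many `k` implies it
    ((∀ K : ℕ, ∃ k ≥ K, ContinuesTo k 1 (center k)) → ∀ a : ℝ, 0 < a → Bound a) := by
  have hth0 : 0 ≤ theta := by rw [theta_eq]; exact Pool.Agent.L5helper5.LE.th_nonneg
  have hth1 : theta ≤ 1 / 4 := by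
    rw [theta_eq]; exact Pool.Agent.L5helper5.LE.th_le_quarter
  have hbd : ∀ a : ℝ, theta < a → Bound a := by
    intro a ha
    rw [theta_eq] at ha
    exact (bound_iff a).2 (Pool.Agent.L5helper5.LE.LBx_of_lt ha)
  have hmain : ∀ a : ℝ, 0 ≤ a → Bound a → ∀ (k M : ℕ) (w : ℝ), 1 + k * a < w → ContinuesTo k M (pt k w) :=
    fun a ha h k M w hw => Pool.Agent.L5helper5.LE.continuesTo_of_LBx ha ((bound_iff a).1 h) k M hw
  have hthk : ∀ (k M : ℕ) (w : ℝ), 1 + k * theta < w → ContinuesTo k M (pt k w) := by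
    intro k M w hw
    have hk : (0 : ℝ) < 2 * ((k : ℝ) + 1) := by positivity
    have hk0 : (0 : ℝ) ≤ k := Nat.cast_nonneg k
    set ε := w - (1 + k * theta) with hε
    have hε0 : 0 < ε := by rw [hε]; linarith
    have h0 := div_pos hε0 hk
    refine hmain (theta + ε / (2 * (k + 1))) (by positivity) (hbd _ (by linarith)) k M w ?_
    have h2 : (k : ℝ) * (ε / (2 * (k + 1))) < ε := by
      rw [mul_div_assoc', div_lt_iff₀ hk]
      nlinarith
    rw [mul_add]
    linarith
  have hlow : ∀ k : ℕ, ((k : ℝ) - 1) * theta ≤ wInf k := by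
    intro k
    rw [theta_eq]; exact Pool.Agent.L5helper5.LE.wk_lower k
  have hup : ∀ k : ℕ, wInf k ≤ 1 + k * theta := by
    intro k
    rw [theta_eq]; exact Pool.Agent.L5helper5.LE.wk_upper k
  have h13 : (∀ ε : ℝ, 0 < ε → ∀ K : ℕ, ∃ k ≥ K, ∃ w ≤ ε * k, ContinuesTo k 1 (pt k w)) →
      ∀ a : ℝ, 0 < a → Bound a := by
    intro h a ha
    apply hbd
    by_contra hcon
    push Not at hcon
    obtain ⟨K, hK⟩ := exists_nat_gt (4 / a)
    obtain ⟨k, hk, w, hw, hc⟩ := h (a / 4) (by positivity) (K + 2)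
    have hk2 : (2 : ℝ) ≤ k := by exact_mod_cast (by omega : 2 ≤ k)
    have hkK : (K : ℝ) ≤ k := by exact_mod_cast (by omega : K ≤ k)
    have h1 : wInf k ≤ max w 1 := Pool.Agent.L5helper5.LE.wk_le (le_max_right _ _)
      (hc.up (Pool.Agent.L5helper5.LE.half_mono (le_max_left _ _)))
    have h2 := hlow k
    have h3 : ((k : ℝ) - 1) * a ≤ ((k : ℝ) - 1) * theta := mul_le_mul_of_nonneg_left hcon (by linarith)
    have h4 : 4 < a * k := by
      have h5 : 4 / a < k := by linarith
      rw [div_lt_iff₀ ha] at h5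
      linarith
    have h6 : (k : ℝ) / 2 * a ≤ ((k : ℝ) - 1) * a := mul_le_mul_of_nonneg_right (by linarith) ha.le
    rcases le_total w 1 with h7 | h7
    · rw [max_eq_right h7] at h1
      nlinarith
    · rw [max_eq_left h7] at h1
      nlinarith
  refine ⟨fun d hd h1 => Pool.Agent.L5helper5.LE.exists_char hd h1, hmain, ?_, ⟨hth0, hth1, hbd, ?_, hthk, ?_, ?_⟩, ?_, ?_⟩
  · intro m w hm hw hc a ha
    exact (bound_iff a).2 (Pool.Agent.L5helper5.LE.bound_of_continuesTo hm hc (by rw [max_eq_left hw]; exact ha))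
  · intro k w hw
    exact Pool.Agent.L5helper5.LE.continuesTo_of_wk hw
  · intro k
    exact ⟨Pool.Agent.L5helper5.LE.one_le_wk k, hlow k, hup k⟩
  · have e1 : Tendsto (fun k : ℕ => ((k : ℝ) - 1) * theta / k) atTop (𝓝 theta) := by
      have h1 : Tendsto (fun k : ℕ => theta - theta * (1 / (k : ℝ))) atTop (𝓝 (theta - theta * 0)) :=
        tendsto_const_nhds.sub (tendsto_one_div_atTop_nhds_zero_nat.const_mul _)
      rw [mul_zero, sub_zero] at h1
      refine h1.congr' ?_
      filter_upwards [eventually_ge_atTop 1] with k hk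
      have : (k : ℝ) ≠ 0 := by exact_mod_cast (by omega : k ≠ 0)
      field_simp
    have e2 : Tendsto (fun k : ℕ => (1 + k * theta) / k) atTop (𝓝 theta) := by
      have h1 : Tendsto (fun k : ℕ => 1 / (k : ℝ) + theta) atTop (𝓝 (0 + theta)) :=
        tendsto_one_div_atTop_nhds_zero_nat.add tendsto_const_nhds
      rw [zero_add] at h1
      refine h1.congr' ?_
      filter_upwards [eventually_ge_atTop 1] with k hk
      have : (k : ℝ) ≠ 0 := by exact_mod_cast (by omega : k ≠ 0)
      field_simp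
    refine tendsto_of_tendsto_of_tendsto_of_le_of_le e1 e2 (fun k => ?_) (fun k => ?_)
    · exact div_le_div_of_nonneg_right (hlow k) (Nat.cast_nonneg k)
    · exact div_le_div_of_nonneg_right (hup k) (Nat.cast_nonneg k)
  · tfae_have 1 → 2 := by
      intro h k M w _ _ hw
      have hk : (0 : ℝ) < 2 * ((k : ℝ) + 1) := by positivity
      have hk0 : (0 : ℝ) ≤ k := Nat.cast_nonneg k
      have h0 : 0 < (w - 1) / (2 * (k + 1)) := div_pos (by linarith) hk
      refine hmain _ h0.le (h _ h0) k M w ?_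
      have h2 : (k : ℝ) * ((w - 1) / (2 * (k + 1))) < w - 1 := by
        rw [mul_div_assoc', div_lt_iff₀ hk]
        nlinarith
      linarith
    tfae_have 2 → 3 := by
      intro h ε hε K
      obtain ⟨n, hn⟩ := exists_nat_gt (2 / ε)
      refine ⟨max K (n + 1), le_max_left _ _, 2, ?_, h _ 1 2 ?_ le_rfl (by norm_num)⟩
      · have h1 : (n : ℝ) ≤ ((max K (n + 1) : ℕ) : ℝ) := by
          exact_mod_cast (Nat.le_succ n).trans (le_max_right _ _)
        rw [div_lt_iff₀ hε] at hn
        nlinarith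
      · exact (Nat.succ_le_succ (Nat.zero_le n)).trans (le_max_right _ _)
    tfae_have 3 → 1 := h13
    tfae_finish
  · intro h
    apply h13
    intro ε hε K
    obtain ⟨n, hn⟩ := exists_nat_gt (1 / ε)
    obtain ⟨k, hk, hc⟩ := h (max K n)
    refine ⟨k, (le_max_left _ _).trans hk, 1, ?_, hc⟩
    have h1 : (n : ℝ) ≤ (k : ℝ) := by exact_mod_cast (le_max_right K n).trans hk
    rw [div_lt_iff₀ hε] at hn
    nlinarith

end Pool.Agent.Results.MP_fed7ff_nt.LindelofDictionary
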