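import Mathlib
import Pool.Agent.L5helper17.RF.Back
import Pool.Agent.L5helper17.RF.Fwd
import Pool.Agent.L5helper17.RF.Crit

/-!
# Continuation of multiple Dirichlet series of quadratic L-functions and error terms of moments

The objects are those of the problem (`Pool.Agent.Q48.MDS.Defs`): `ContinuesTo k M p` says that `F_M` extends
holomorphically from the region where all the real parts are greater than `1` to a tube domain containing the real point `p`,
with polynomial bounds in vertical strips; `p = (w, s_1, ..., s_k)`; `Q1` is `ContinuesTo k M (1, 1/2, ..., 1/2)` for all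
`k, M ≥ 1`.

The Riesz means of the shifted moments are
`R_m(X; s) = ∑_{1 < d ≤ X} χ_d(M) ∏_j L(s_j, χ_d) (1 - d/X)^m` (`d` fundamental); the main terms predicted by the recipe are
combinations of the powers `X ^ (1 - ∑_{j ∈ J} (s_j - 1/2))`, `J ⊆ {1, ..., k}`. The differential operator
`∏_J (X d/dX + ∑_J (s_j - 1/2) - 1)` kills all of them; applied to `R_m` it gives
`E_m(X; s) = ∑_{1 < d ≤ X} χ_d(M) ∏_j L(s_j, χ_d) W_m(d/X; s)`,
`W_m(u; s) = ∑_{i ≤ m} (-1)^i C(m, i) ∏_J (∑_J (s_j - 1/2) - 1 - i) u^i`.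

`PowerSaving k M m β s⁰` says that `E_m(X; s) ≪ X ^ β' (1 + |Im s|) ^ N` for some `β' < β`, uniformly in `X ≥ 1` and in the
complex `s` with `Re s` close to `s⁰`. The theorem: for `β > 0` and `s⁰_j > 0`, `F_M` continues to `(β, s⁰)` if and only if this
holds for one `m > 2 ^ k`, if and only if it holds for all large `m`. So the instance `k, M` of Q1 is equivalent to a power
saving (`β = 1`) in the weighted moments near the central point, and also to such a bound near any one point `s⁰` with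
`β + (1/2) ∑ (s⁰_j - 1/2) ≤ 1`.
-/

set_option autoImplicit false

namespace Pool.Agent.Results.MP_fed7ff_nt.MomentErrorExponents

open Complex Filter Topology
open Pool.Agent.Q48.MDS
open Pool.Agent.L5helper5.LE (Lx)

/-- `∏_J (∑_{j ∈ J} (s_j - 1/2) - 1 - i)`, the product over all subsets `J` of `{1, ..., k}`: the value at `w = -i` of the
polar factor `∏_J (σ_J(w) - 1)`. -/
noncomputable def polar {k : ℕ} (s : Fin k → ℂ) (i : ℕ) : ℂ := ∏ J : Finset (Fin k), (∑ j ∈ J, (s j - 1 / 2) - 1 - i)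

/-- The weight `W_m(u; s)`. -/
noncomputable def weight {k : ℕ} (m : ℕ) (s : Fin k → ℂ) (u : ℝ) : ℂ :=
  ∑ i ∈ Finset.range (m + 1), (-1) ^ i * (m.choose i : ℂ) * polar s i * (u : ℂ) ^ i

open Classical in
/-- The weighted moment `E_m(X; s)`: the sum over the fundamental discriminants `1 < d ≤ X`. Here `Lx d s = L(s, χ_d)`. -/
noncomputable def moment (k M m : ℕ) (s : Fin k → ℂ) (X : ℝ) : ℂ :=
  ∑ d ∈ (Finset.Icc 2 ⌊X⌋₊).filter FundDisc, (kron d M : ℂ) * (∏ j : Fin k, Lx d (s j)) * weight m s (d / X)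

/-- `E_m(X; s) ≪ X ^ β' (1 + |Im s|) ^ N` for some `β' < β`, for `X ≥ 1` and `Re s` close to `s⁰`. -/
def PowerSaving (k M m : ℕ) (β : ℝ) (s0 : Fin k → ℝ) : Prop :=
  ∃ β' : ℝ, β' < β ∧ ∃ η : ℝ, 0 < η ∧ ∃ (C : ℝ) (N : ℕ), ∀ s : Fin k → ℂ, (∀ j, |(s j).re - s0 j| < η) →
    ∀ X : ℝ, 1 ≤ X → ‖moment k M m s X‖ ≤ C * X ^ β' * (1 + ‖fun j => (s j).im‖) ^ N

lemma weight_eq {k : ℕ} (m : ℕ) (s : Fin k → ℂ) (u : ℝ) : weight m s u = L5helper17.RF.wt (L5helper17.RF.pc s) m u := by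
  unfold weight L5helper17.RF.wt
  refine Finset.sum_congr rfl fun i _ => ?_
  have h1 : (L5helper17.RF.pc s).eval (-(i : ℂ)) = polar s i := by
    unfold L5helper17.RF.pc polar
    rw [Polynomial.eval_prod]
    refine Finset.prod_congr rfl fun J _ => ?_
    simp only [Polynomial.eval_add, Polynomial.eval_X, Polynomial.eval_C]
    ring
  rw [h1]
  rfl

lemma moment_eq {k : ℕ} (M m : ℕ) (s : Fin k → ℂ) {X : ℝ} (hX : 1 ≤ X) :
    moment k M m s X = L5helper17.RF.ee k M m s X⁻¹ := by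
  have hX0 : 0 < X := by linarith
  rw [L5helper17.RF.ee_eq_sum k M m s (N := ⌊X⌋₊ + 1) (t := X⁻¹) (by
    rw [← div_eq_mul_inv, lt_div_iff₀ hX0, one_mul]
    exact_mod_cast Nat.lt_floor_add_one X) (inv_pos.2 hX0)]
  unfold moment
  rw [Finset.sum_filter]
  have h1 : Finset.Icc 2 ⌊X⌋₊ ⊆ Finset.range (⌊X⌋₊ + 1) := fun d hd => by
    rw [Finset.mem_Icc] at hd
    rw [Finset.mem_range]
    omega
  rw [← Finset.sum_subset h1 fun d hd hnd => ?_]
  · refine Finset.sum_congr rfl fun d hd => ?_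
    rw [Finset.mem_Icc] at hd
    have hdX : (d : ℝ) ≤ X := (Nat.cast_le.2 hd.2).trans (Nat.floor_le hX0.le)
    have hd0 : (0 : ℝ) < d := by exact_mod_cast (by omega : 0 < d)
    by_cases hf : FundDisc d
    · rw [if_pos hf]
      have h2 : L5helper17.RF.g1 (L5helper17.RF.pc s) m (d * X⁻¹) = weight m s (d / X) := by
        unfold L5helper17.RF.g1
        rw [Set.indicator_of_mem (show (d : ℝ) * X⁻¹ ∈ Set.Ioc (0 : ℝ) 1 from
          ⟨by positivity, by rw [← div_eq_mul_inv, div_le_one hX0]; exact hdX⟩), weight_eq, div_eq_mul_inv]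
      rw [h2]
      unfold L5helper17.RF.cfn
      rw [if_pos ⟨hf, by omega⟩]
    · rw [if_neg hf]
      unfold L5helper17.RF.cfn
      rw [if_neg (fun h => hf h.1), zero_mul]
  · rw [Finset.mem_range] at hd
    rw [Finset.mem_Icc] at hnd
    rw [L5helper17.RF.cfn_zero k M s (by omega), zero_mul]

lemma continuesTo_of_powerSaving {k M m : ℕ} (hm : 2 ^ k < m) {β : ℝ} {s0 : Fin k → ℝ} (hs0 : ∀ j, 0 < s0 j)
    (h : PowerSaving k M m β s0) : ContinuesTo k M (Fin.cons β s0) := by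
  obtain ⟨β', hβ', η, hη, C, N, h⟩ := h
  refine L5helper17.RF.continuesTo_of_bound (C := max C 0) (N := N) hm hs0 hη hβ' (le_max_right _ _) fun s hs t ht ht1 => ?_
  have h1 := h s hs t⁻¹ (by rw [one_le_inv₀ ht]; exact ht1)
  rw [moment_eq M m s (by rw [one_le_inv₀ ht]; exact ht1), inv_inv] at h1
  refine h1.trans ?_
  have h2 : (t⁻¹ : ℝ) ^ β' = t ^ (-β') := by rw [Real.inv_rpow ht.le, Real.rpow_neg ht.le]
  rw [h2]
  have h3 : 0 ≤ t ^ (-β') := Real.rpow_nonneg ht.le _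
  exact mul_le_mul_of_nonneg_right (mul_le_mul_of_nonneg_right (le_max_left _ _) h3) (by positivity)

lemma powerSaving_of_continuesTo {k M : ℕ} {β : ℝ} {s0 : Fin k → ℝ} (hβ : 0 < β) (hs0 : ∀ j, 0 < s0 j)
    (h : ContinuesTo k M (Fin.cons β s0)) : ∃ m0 : ℕ, ∀ m ≥ m0, PowerSaving k M m β s0 := by
  obtain ⟨β', hβ'0, hβ', η, hη, N, h⟩ := L5helper17.RF.bound_of_continuesTo hβ hs0 h
  refine ⟨max (2 ^ k) N + 1, fun m hm => ?_⟩
  have hm1 : 2 ^ k < m := lt_of_lt_of_le (Nat.lt_succ_of_le (le_max_left _ _)) hm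
  have hm2 : N < m := lt_of_lt_of_le (Nat.lt_succ_of_le (le_max_right _ _)) hm
  obtain ⟨C, hC, h⟩ := h m hm1 hm2
  refine ⟨β', hβ', η, hη, C, N, fun s hs X hX => ?_⟩
  have hX0 : 0 < X := by linarith
  rw [moment_eq M m s hX]
  refine (h s hs X⁻¹ (inv_pos.2 hX0) (inv_le_one_of_one_le₀ hX)).trans (le_of_eq ?_)
  rw [Real.inv_rpow hX0.le, Real.rpow_neg hX0.le, inv_inv]

/-- **Theorem.** -/
theorem result :
    -- `Lx d s` is `L(s, χ_d)`
    (∀ (d : ℕ) [NeZero d], FundDisc d → 1 < d → ∀ χ : DirichletCharacter ℂ d,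
      (∀ n : ℕ, 1 ≤ n → χ (n : ZMod d) = (kron d n : ℂ)) → ∀ s : ℂ, Lx d s = DirichletCharacter.LFunction χ s) ∧
    -- the points of continuation are given by the exponents of the error terms of the moments
    (∀ (k M : ℕ) (β : ℝ) (s0 : Fin k → ℝ), 0 < β → (∀ j, 0 < s0 j) →
      (ContinuesTo k M (Fin.cons β s0) ↔ ∃ m : ℕ, 2 ^ k < m ∧ PowerSaving k M m β s0)) ∧
    (∀ (k M : ℕ) (β : ℝ) (s0 : Fin k → ℝ), 0 < β → (∀ j, 0 < s0 j) →
      (ContinuesTo k M (Fin.cons β s0) ↔ ∃ m0 : ℕ, ∀ m ≥ m0, PowerSaving k M m β s0)) ∧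
    -- one direction holds for all real `β`
    (∀ (k M m : ℕ) (β : ℝ) (s0 : Fin k → ℝ), 2 ^ k < m → (∀ j, 0 < s0 j) → PowerSaving k M m β s0 →
      ContinuesTo k M (Fin.cons β s0)) ∧
    -- every instance of Q1
    (∀ k M : ℕ, ContinuesTo k M (center k) ↔ ∃ m : ℕ, 2 ^ k < m ∧ PowerSaving k M m 1 (fun _ => 1 / 2)) ∧
    (∀ k M : ℕ, ContinuesTo k M (center k) ↔ ∃ (m : ℕ) (β : ℝ) (s0 : Fin k → ℝ), 2 ^ k < m ∧ (∀ j, 0 < s0 j) ∧
      β + 1 / 2 * ∑ j, (s0 j - 1 / 2) ≤ 1 ∧ PowerSaving k M m β s0) ∧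
    -- Q1
    (Q1 ↔ ∀ K : ℕ, ∃ k ≥ K, ∃ m : ℕ, 2 ^ k < m ∧ PowerSaving k 1 m 1 (fun _ => 1 / 2)) := by
  have h1 : ∀ (k M : ℕ) (β : ℝ) (s0 : Fin k → ℝ), 0 < β → (∀ j, 0 < s0 j) →
      (ContinuesTo k M (Fin.cons β s0) ↔ ∃ m : ℕ, 2 ^ k < m ∧ PowerSaving k M m β s0) := by
    intro k M β s0 hβ hs0
    constructor
    · intro h
      obtain ⟨m0, hm0⟩ := powerSaving_of_continuesTo hβ hs0 h
      exact ⟨max m0 (2 ^ k + 1), lt_of_lt_of_le (Nat.lt_succ_self _) (le_max_right _ _), hm0 _ (le_max_left _ _)⟩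
    · rintro ⟨m, hm, h⟩
      exact continuesTo_of_powerSaving hm hs0 h
  have h2 : ∀ k M : ℕ, ContinuesTo k M (center k) ↔ ∃ m : ℕ, 2 ^ k < m ∧ PowerSaving k M m 1 (fun _ => 1 / 2) :=
    fun k M => h1 k M 1 (fun _ => 1 / 2) one_pos fun _ => by norm_num
  refine ⟨fun d _ hd hd1 χ hχ s => (L5helper5.LE.Lx_of_char hd hd1 hχ s).symm, h1, ?_, fun k M m β s0 hm hs0 h => continuesTo_of_powerSaving hm hs0 h, h2, ?_, ?_⟩
  · intro k M β s0 hβ hs0
    constructor
    · exact powerSaving_of_continuesTo hβ hs0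
    · rintro ⟨m0, h⟩
      exact continuesTo_of_powerSaving (lt_of_lt_of_le (Nat.lt_succ_self _) (le_max_right _ _)) hs0
        (h (max m0 (2 ^ k + 1)) (le_max_left _ _))
  · intro k M
    constructor
    · intro h
      obtain ⟨m, hm, h3⟩ := (h2 k M).1 h
      exact ⟨m, 1, fun _ => 1 / 2, hm, fun _ => by norm_num, by simp, h3⟩
    · rintro ⟨m, β, s0, hm, hs0, hh, h⟩
      have h3 := continuesTo_of_powerSaving hm hs0 h
      refine (L5helper17.RF.line_iff M 1).2 ⟨_, fun j => ?_, ?_, h3⟩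
      · simpa using hs0 j
      · simpa [L5helper17.RF.ht] using hh
  · rw [q1_iff]
    exact forall_congr' fun K => exists_congr fun k => and_congr_right fun _ => h2 k 1

end Pool.Agent.Results.MP_fed7ff_nt.MomentErrorExponents
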