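import Mathlib
import Pool.Agent.L5helper17.UR.Asm
import Pool.Agent.L5helper84.BR.Main
import Pool.Agent.L5helper5.LE.Conv

/-!
# An explicit region of continuation of the multiple Dirichlet series, for every `k` and `M`

The objects are those of the problem (`Pool.Agent.Q48.MDS.Defs`): `ContinuesTo k M p` says that `F_M` extends
holomorphically from the region where all the real parts are greater than `1` to a tube domain containing the real point `p`,
with polynomial bounds in vertical strips; `p = (w, s_1, ..., s_k)`.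

Write `u_j = (1/2 - |s_j - 1/2|)^+` (so `0 ≤ u_j ≤ 1/2`, and `u_j = 0` for `s_j ≥ 1`) and `w' = w - ∑ (1/2 - s_j)^+`.
Then `F_M` continues to `(w, s)` as soon as `w'` is greater than

  `1/2 + (u_i + u_j) / 2` (`i ≠ j`), `1/2 + u_i / 3 + (∑ u) / 6`, `1/2 + (∑ u) / 4`, `(∑ u) / 2`

(the first three if `∑ u < 2`, the last one if `∑ u ≥ 2`). For `k ≤ 4` the first two kinds of conditions suffice: `w' > 1/2 + (the two largest u's) / 2`. In particular, for `k ≤ 4`,
`F_M` continues to all the points `(1, s)` with `s_j ≥ 1/2`, at most one of them equal to `1/2`, and to `(w, 1/2, ..., 1/2)`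
for all `w > 1`; for `k ≥ 4` to `(w, 1/2, ..., 1/2)` for all `w > k / 4`, and for all `w > 1 + (k - 4) a` if
`L(1/2 + it, χ_d) ≪ d^a (1+|t|)^N`.

The proof: Heath-Brown's large sieve for quadratic characters gives
`∑_{d ≤ X} |L(s, χ_d)|^4 ≪ X^{1+ε} (1+|s|)^N` for `Re s > 1/2` and the base region `w > 1/2`, `s_j > 1` (by `helper84`, with the
Pólya-Vinogradov inequality); then the functional equations, Bochner's tube theorem and the vertices of the hypersimplex.
-/

set_option autoImplicit false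

namespace Pool.Agent.Results.MP_fed7ff_nt.RegionOfContinuation

open Complex Filter Topology
open Pool.Agent.Q48.MDS

/-- `(1/2 - |s - 1/2|)^+` -/
noncomputable def depth (s : ℝ) : ℝ := max 0 (1 / 2 - |s - 1 / 2|)

/-- `w - ∑ (1/2 - s_j)^+` for `p = (w, s_1, ..., s_k)` -/
noncomputable def level {k : ℕ} (p : Fin (k + 1) → ℝ) : ℝ := p 0 - ∑ j : Fin k, max 0 (1 / 2 - p j.succ)

/-- `w + (1/2) ∑ (s_j - 1/2)`: the smallest `w'` such that the reflections and convexity give `(w', 1/2, ..., 1/2)` -/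
noncomputable def height {k : ℕ} (p : Fin (k + 1) → ℝ) : ℝ := p 0 + 1 / 2 * ∑ j : Fin k, (p j.succ - 1 / 2)

/-- `|L(1/2 + it, χ_d)| ≤ C d^a (1+|t|)^N` for all positive fundamental discriminants `d > 1` and all real `t`, with some
constants `C`, `N`. -/
def Bound (a : ℝ) : Prop := ∃ (C : ℝ) (N : ℕ), ∀ (d : ℕ) [NeZero d], FundDisc d → 1 < d →
  ∀ χ : DirichletCharacter ℂ d, (∀ n : ℕ, 1 ≤ n → χ (n : ZMod d) = (kron d n : ℂ)) →
    ∀ t : ℝ, ‖DirichletCharacter.LFunction χ (1 / 2 + I * t)‖ ≤ C * (d : ℝ) ^ a * (1 + |t|) ^ N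

lemma bound_imp {a : ℝ} (h : Bound a) : Pool.Agent.L5helper5.LE.LBx a := by
  obtain ⟨C, N, h⟩ := h
  refine ⟨C, N, fun d hd h1 t => ?_⟩
  have : NeZero d := ⟨by omega⟩
  rw [Pool.Agent.L5helper5.LE.Lx_def hd h1]
  exact h d hd h1 _ (fun n hn => Pool.Agent.L5helper5.LE.chr_apply hd h1 hn) t

/-- The conditions. -/
def Inside (a : ℝ) {k : ℕ} (p : Fin (k + 1) → ℝ) : Prop :=
  (∑ j : Fin k, depth (p j.succ) < 2 →
    (∀ i j : Fin k, i ≠ j → 1 / 2 + 1 / 2 * (depth (p i.succ) + depth (p j.succ)) < level p) ∧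
    (∀ i : Fin k, 1 / 2 + depth (p i.succ) / 3 + (∑ j : Fin k, depth (p j.succ)) / 6 < level p) ∧
    1 / 2 + (∑ j : Fin k, depth (p j.succ)) / 4 < level p) ∧
  (2 ≤ ∑ j : Fin k, depth (p j.succ) → 1 + (2 * ∑ j : Fin k, depth (p j.succ) - 4) * a < level p)

lemma depth_nonneg (s : ℝ) : 0 ≤ depth s := le_max_left _ _

lemma depth_le (s : ℝ) : depth s ≤ 1 / 2 := max_le (by norm_num) (by linarith [abs_nonneg (s - 1 / 2)])

theorem main {a : ℝ} (ha : 0 ≤ a) (hL : Pool.Agent.L5helper5.LE.LBx a) {k M : ℕ} (hM : 1 ≤ M) {p : Fin (k + 1) → ℝ}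
    (h : Inside a p) : ContinuesTo k M p :=
  L5helper17.UR.region (fun p hw hs => L5helper84.BR.base_region k M hM p hw hs) ha hL h

theorem main' {k M : ℕ} (hM : 1 ≤ M) {p : Fin (k + 1) → ℝ} (h : Inside (1 / 4) p) : ContinuesTo k M p := by
  obtain ⟨h1, h4⟩ := h
  by_cases hs : 2 ≤ ∑ j : Fin k, depth (p j.succ)
  · have h5 := h4 hs
    set S := ∑ j : Fin k, depth (p j.succ) with hS
    obtain ⟨a, ha1, ha2⟩ : ∃ a : ℝ, 1 / 4 < a ∧ 1 + (2 * S - 4) * a < level p := by
      refine ⟨1 / 4 + (level p - (1 + (2 * S - 4) * (1 / 4))) / (2 * (2 * S - 4 + 1)), ?_, ?_⟩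
      · have : 0 < (level p - (1 + (2 * S - 4) * (1 / 4))) / (2 * (2 * S - 4 + 1)) :=
          div_pos (by linarith) (by linarith)
        linarith
      · set g := level p - (1 + (2 * S - 4) * (1 / 4)) with hg
        have hg0 : 0 < g := by linarith
        have e : (2 * S - 4) * (g / (2 * (2 * S - 4 + 1))) ≤ g / 2 := by
          rw [mul_div_assoc', div_le_div_iff₀ (by linarith) (by norm_num)]
          nlinarith
        have e2 : 1 + (2 * S - 4) * (1 / 4 + g / (2 * (2 * S - 4 + 1))) =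
            1 + (2 * S - 4) * (1 / 4) + (2 * S - 4) * (g / (2 * (2 * S - 4 + 1))) := by ring
        rw [e2]
        linarith
    exact main (by linarith) (Pool.Agent.L5helper5.LE.LBx_quarter ha1) hM ⟨h1, fun _ => ha2⟩
  · exact main (a := 1) (by norm_num) (Pool.Agent.L5helper5.LE.LBx_quarter (by norm_num)) hM
      ⟨h1, fun h => absurd h hs⟩

lemma inside_small {k : ℕ} (hk : 1 ≤ k) (hk4 : k ≤ 4) {p : Fin (k + 1) → ℝ}
    (h1 : ∀ i j : Fin k, i ≠ j → 1 / 2 + 1 / 2 * (depth (p i.succ) + depth (p j.succ)) < level p)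
    (h2 : ∀ i : Fin k, 1 / 2 + 1 / 2 * depth (p i.succ) < level p) : Inside (1 / 4) p := by
  classical
  have : Nonempty (Fin k) := ⟨⟨0, by omega⟩⟩
  set u : Fin k → ℝ := fun j => depth (p j.succ) with hu
  have h0 : ∀ j, 0 ≤ u j := fun j => depth_nonneg _
  have hh : ∀ j, u j ≤ 1 / 2 := fun j => depth_le _
  obtain ⟨i0, -, hmax⟩ := Finset.exists_max_image (Finset.univ : Finset (Fin k)) u Finset.univ_nonempty
  obtain ⟨m, hm0, hmu, hmi, hmw⟩ : ∃ m : ℝ, 0 ≤ m ∧ (∀ j, j ≠ i0 → u j ≤ m) ∧ m ≤ u i0 ∧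
      1 / 2 + 1 / 2 * (u i0 + m) < level p := by
    rcases (Finset.univ.erase i0).eq_empty_or_nonempty with he | hne'
    · refine ⟨0, le_rfl, fun j hj => ?_, h0 i0, ?_⟩
      · have : j ∈ Finset.univ.erase i0 := Finset.mem_erase.2 ⟨hj, Finset.mem_univ j⟩
        rw [he] at this
        exact absurd this (Finset.notMem_empty j)
      · have := h2 i0
        simp only [hu] at this ⊢
        linarith
    · obtain ⟨i1, hi1, hmax1⟩ := Finset.exists_max_image _ u hne'
      refine ⟨u i1, h0 i1, fun j hj => hmax1 j (Finset.mem_erase.2 ⟨hj, Finset.mem_univ j⟩), hmax i1 (Finset.mem_univ _), ?_⟩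
      exact h1 i0 i1 (Finset.ne_of_mem_erase hi1).symm
  have hsum : ∑ j, u j ≤ u i0 + 3 * m := by
    rw [← Finset.add_sum_erase _ u (Finset.mem_univ i0)]
    have h3 : ∑ j ∈ Finset.univ.erase i0, u j ≤ ∑ _j ∈ Finset.univ.erase i0, m :=
      Finset.sum_le_sum fun j hj => hmu j (Finset.ne_of_mem_erase hj)
    rw [Finset.sum_const, nsmul_eq_mul, Finset.card_erase_of_mem (Finset.mem_univ i0), Finset.card_univ,
      Fintype.card_fin] at h3
    have h4 : ((k - 1 : ℕ) : ℝ) ≤ 3 := by exact_mod_cast (by omega : k - 1 ≤ 3)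
    have h5 : ((k - 1 : ℕ) : ℝ) * m ≤ 3 * m := mul_le_mul_of_nonneg_right h4 hm0
    linarith
  have hi0 := hh i0
  refine ⟨fun _ => ⟨h1, fun i => ?_, ?_⟩, fun hs => ?_⟩
  · have h3 := hmax i (Finset.mem_univ i)
    show 1 / 2 + u i / 3 + (∑ j, u j) / 6 < level p
    linarith
  · show 1 / 2 + (∑ j, u j) / 4 < level p
    linarith
  · show 1 + (2 * ∑ j, u j - 4) * (1 / 4) < level p
    linarith

/-- **Theorem.** -/
theorem result :
    -- the region of continuation
    (∀ (k M : ℕ) (p : Fin (k + 1) → ℝ), 1 ≤ M → Inside (1 / 4) p → ContinuesTo k M p) ∧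
    -- larger for `k > 4` with a bound for the L-functions
    (∀ a : ℝ, 0 ≤ a → Bound a → ∀ (k M : ℕ) (p : Fin (k + 1) → ℝ), 1 ≤ M → Inside a p → ContinuesTo k M p) ∧
    -- the region for `k ≤ 4`
    (∀ (k M : ℕ) (p : Fin (k + 1) → ℝ), 1 ≤ k → k ≤ 4 → 1 ≤ M →
      (∀ i j : Fin k, i ≠ j → 1 / 2 + 1 / 2 * (depth (p i.succ) + depth (p j.succ)) < level p) →
      (∀ i : Fin k, 1 / 2 + 1 / 2 * depth (p i.succ) < level p) → ContinuesTo k M p) ∧
    -- the hyperplane `w = 1` for `k ≤ 4`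
    (∀ (k M : ℕ) (s : Fin k → ℝ), 1 ≤ k → k ≤ 4 → 1 ≤ M → (∀ j, 1 / 2 ≤ s j) →
      (∀ i j, i ≠ j → 1 / 2 < s i ∨ 1 / 2 < s j) → ContinuesTo k M (Fin.cons 1 s)) ∧
    -- the line `s_1 = ... = s_k = 1/2`
    (∀ (k M : ℕ) (w : ℝ), 1 ≤ M → 1 < w → (k : ℝ) / 4 < w → ContinuesTo k M (Fin.cons w (fun _ => 1 / 2))) ∧
    (∀ a : ℝ, 0 ≤ a → Bound a → ∀ (k M : ℕ) (w : ℝ), 1 ≤ M → 1 < w → 1 + ((k : ℝ) - 4) * a < w →
      ContinuesTo k M (Fin.cons w (fun _ => 1 / 2))) ∧
    -- what is missing: a point of height at most `1` (for `k ≤ 4` all heights greater than `1` are reached)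
    (∀ k M : ℕ, ContinuesTo k M (center k) ↔
      ∃ p : Fin (k + 1) → ℝ, (∀ j : Fin k, 0 < p j.succ) ∧ height p ≤ 1 ∧ ContinuesTo k M p) := by
  have hline : ∀ (a : ℝ) (k : ℕ) (w : ℝ), 1 < w → (4 ≤ k → 1 + ((k : ℝ) - 4) * a < w) →
      Inside a (Fin.cons w (fun _ => 1 / 2) : Fin (k + 1) → ℝ) := by
    intro a k w h1 h2
    have e1 : depth (1 / 2) = 1 / 2 := by
      unfold depth; norm_num
    have e2 : level (Fin.cons w (fun _ => 1 / 2) : Fin (k + 1) → ℝ) = w := by
      unfold level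
      simp
    refine ⟨fun hs => ?_, fun hs => ?_⟩
    · simp only [Fin.cons_succ, e1, Finset.sum_const, Finset.card_univ, Fintype.card_fin, nsmul_eq_mul] at hs ⊢
      rw [e2]
      exact ⟨fun i j _ => by linarith, fun i => by linarith, by linarith⟩
    · rw [e2]
      simp only [Fin.cons_succ, e1, Finset.sum_const, Finset.card_univ, Fintype.card_fin, nsmul_eq_mul] at hs ⊢
      have hk : 4 ≤ k := by
        have : (4 : ℝ) ≤ k := by linarith
        exact_mod_cast this
      have := h2 hk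
      have e3 : (2 * ((k : ℝ) * (1 / 2)) - 4) * a = ((k : ℝ) - 4) * a := by ring
      rw [e3]; exact this
  refine ⟨fun k M p hM h => main' hM h, fun a ha hB k M p hM h => main ha (bound_imp hB) hM h,
    fun k M p hk hk4 hM h1 h2 => main' hM (inside_small hk hk4 h1 h2), ?_, ?_, ?_, fun k M => L5helper17.RF.line_iff M 1⟩
  · intro k M s hk hk4 hM hs hs2
    have e1 : level (Fin.cons 1 s : Fin (k + 1) → ℝ) = 1 := by
      unfold level
      simp only [Fin.cons_zero, Fin.cons_succ]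
      rw [Finset.sum_eq_zero fun j _ => max_eq_left (by linarith [hs j])]
      ring
    have e2 : ∀ j, depth (s j) ≤ 1 / 2 := fun j => depth_le _
    have e3 : ∀ j, 1 / 2 < s j → depth (s j) < 1 / 2 := by
      intro j hj
      unfold depth
      rw [abs_of_pos (by linarith)]
      exact max_lt (by norm_num) (by linarith)
    refine main' hM (inside_small hk hk4 (fun i j hij => ?_) fun i => ?_)
    · rw [e1]; simp only [Fin.cons_succ]
      rcases hs2 i j hij with h | h
      · linarith [e2 j, e3 i h]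
      · linarith [e2 i, e3 j h]
    · rw [e1]; simp only [Fin.cons_succ]
      linarith [e2 i]
  · intro k M w hM h1 h2
    exact main' hM (hline _ k w h1 (fun _ => by linarith))
  · intro a ha hB k M w hM h1 h2
    exact main ha (bound_imp hB) hM (hline a k w h1 (fun _ => h2))

end Pool.Agent.Results.MP_fed7ff_nt.RegionOfContinuation
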